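import Pool.Agent.X190.ZSum.Suf

set_option autoImplicit false

open Polynomial

namespace Pool.Agent.Results.MP_31565c_an.ZeroSumCriterion

/-- `V d` is the space of real polynomials of degree at most `d` whose coefficient of
`t ^ (d - 1)` is zero. -/
def V (d : ℕ) : Submodule ℝ ℝ[X] where
  carrier := {p | p.natDegree ≤ d ∧ p.coeff (d - 1) = 0}
  add_mem' := by
    rintro p q ⟨hp, hp'⟩ ⟨hq, hq'⟩
    exact ⟨(natDegree_add_le p q).trans (max_le hp hq), by rw [coeff_add, hp', hq', add_zero]⟩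
  zero_mem' := ⟨by simp, by simp⟩
  smul_mem' := by
    rintro c p ⟨hp, hp'⟩
    exact ⟨(natDegree_smul_le c p).trans hp, by rw [coeff_smul, hp', smul_zero]⟩

/-- `T` is diagonal: there are real numbers `λ_k` with `T (∑ a_k t ^ k) = ∑ λ_k a_k t ^ k`. -/
def IsDiagonal {d : ℕ} (T : V d →ₗ[ℝ] V d) : Prop :=
  ∃ lam : ℕ → ℝ, ∀ (p : V d) (k : ℕ), (T p : ℝ[X]).coeff k = lam k * (p : ℝ[X]).coeff k

/-- A real polynomial is real-rooted if all its complex zeros are real; the zero polynomial counts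
as real-rooted. -/
def RealRooted (p : ℝ[X]) : Prop := p = 0 ∨ ∀ z : ℂ, aeval z p = 0 → z.im = 0

/-- `T` preserves real-rootedness on `V d`. -/
def Preserves {d : ℕ} (T : V d →ₗ[ℝ] V d) : Prop :=
  ∀ p : V d, RealRooted (p : ℝ[X]) → RealRooted (T p : ℝ[X])

/-- The polynomial `q_d = (t - 1) ^ (d - 1) * (t + d - 1)`. -/
noncomputable def q (d : ℕ) : ℝ[X] := (X - 1) ^ (d - 1) * (X + C ((d : ℝ) - 1))

/-- At least `d - 1` of the real zeros of `p`, counted with multiplicity, are `≥ 0`, or at least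
`d - 1` of them are `≤ 0`. -/
def SameSign (d : ℕ) (p : ℝ[X]) : Prop :=
  d - 1 ≤ Multiset.card (p.roots.filter (fun x => 0 ≤ x)) ∨
    d - 1 ≤ Multiset.card (p.roots.filter (fun x => x ≤ 0))

/-- All real zeros of `p` are `≥ 0`, or all of them are `≤ 0`. -/
def AllSameSign (p : ℝ[X]) : Prop := (∀ x ∈ p.roots, 0 ≤ x) ∨ (∀ x ∈ p.roots, x ≤ 0)

theorem q_mem (d : ℕ) (hd : 2 ≤ d) : q d ∈ V d :=
  MP_0cd67c_ag.ZeroSumPreservers.g0_mem d (by omega)

theorem pow_mem (d : ℕ) (hd : 2 ≤ d) : (X ^ d : ℝ[X]) ∈ V d := by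
  constructor
  · show (X ^ d : ℝ[X]).natDegree ≤ d
    rw [natDegree_X_pow]
  · show (X ^ d : ℝ[X]).coeff (d - 1) = 0
    rw [coeff_X_pow, if_neg (by omega)]

theorem realRooted_iff (p : ℝ[X]) : RealRooted p ↔ p.Splits :=
  MP_0cd67c_ag.ZeroSumPreservers.splits_iff_only p

theorem pres_of {d : ℕ} {T : V d →ₗ[ℝ] V d} {lam : ℕ → ℝ}
    (hlam : ∀ (p : V d) (k : ℕ), (T p : ℝ[X]).coeff k = lam k * (p : ℝ[X]).coeff k)
    (hT : Preserves T) (p : ℝ[X]) (hp : p.natDegree ≤ d) (hp1 : p.coeff (d - 1) = 0)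
    (hps : p.Splits) (Q : ℝ[X]) (hQ : ∀ k, Q.coeff k = lam k * p.coeff k) : Q.Splits := by
  have h1 : (T ⟨p, hp, hp1⟩ : ℝ[X]) = Q := by
    ext k
    rw [hlam, hQ]
  rw [← h1, ← realRooted_iff]
  exact hT ⟨p, hp, hp1⟩ ((realRooted_iff p).2 hps)

theorem T_pow {d : ℕ} (hd : 2 ≤ d) {T : V d →ₗ[ℝ] V d} {lam : ℕ → ℝ}
    (hlam : ∀ (p : V d) (k : ℕ), (T p : ℝ[X]).coeff k = lam k * (p : ℝ[X]).coeff k) :
    (T ⟨X ^ d, pow_mem d hd⟩ : ℝ[X]) = C (lam d) * X ^ d := by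
  ext k
  rw [hlam, coeff_C_mul]
  show lam k * (X ^ d : ℝ[X]).coeff k = _
  rw [coeff_X_pow]
  split_ifs with h
  · rw [h]
  · rw [mul_zero, mul_zero]

theorem suff {d : ℕ} (hd : 2 ≤ d) {T : V d →ₗ[ℝ] V d} {lam : ℕ → ℝ}
    (hlam : ∀ (p : V d) (k : ℕ), (T p : ℝ[X]).coeff k = lam k * (p : ℝ[X]).coeff k)
    (h1 : RealRooted (T ⟨q d, q_mem d hd⟩ : ℝ[X]))
    (h2 : SameSign d (T ⟨q d, q_mem d hd⟩ : ℝ[X])) : Preserves T := by
  let T' : MP_0cd67c_ag.ZeroSumPreservers.ZeroSum d →ₗ[ℝ]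
    MP_0cd67c_ag.ZeroSumPreservers.ZeroSum d := T
  refine MP_0cd67c_ag.ZeroSumPreservers.result d d (by omega) (by omega) T' ?_ h1 h2
  refine ⟨fun i => lam (d - i), ?_⟩
  intro i hi _ m hm
  rw [if_pos hi]
  ext k
  have h3 : (T' m : ℝ[X]).coeff k = lam k * (m : ℝ[X]).coeff k := hlam m k
  rw [h3, hm, coeff_C_mul, coeff_X_pow]
  split_ifs with h
  · rw [h]
  · rw [mul_zero, mul_zero]

/-- a map of the form `p ↦ a_k t ^ k` -/
noncomputable def proj (d k : ℕ) (hk : k ≤ d) (hk1 : k ≠ d - 1) : V d →ₗ[ℝ] V d where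
  toFun p := ⟨C ((p : ℝ[X]).coeff k) * X ^ k, by
    constructor
    · exact (natDegree_C_mul_X_pow_le _ _).trans hk
    · rw [coeff_C_mul, coeff_X_pow, if_neg (Ne.symm hk1), mul_zero]⟩
  map_add' p p' := by
    apply Subtype.ext
    simp [add_mul]
  map_smul' c p := by
    apply Subtype.ext
    simp [smul_eq_C_mul, mul_assoc]

theorem result :
    (∀ (d : ℕ) (hd : 2 ≤ d) (T : V d →ₗ[ℝ] V d), IsDiagonal T →
      ((T ⟨X ^ d, pow_mem d hd⟩ : ℝ[X]) ≠ 0 →
        (Preserves T ↔ RealRooted (T ⟨q d, q_mem d hd⟩ : ℝ[X]) ∧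
          SameSign d (T ⟨q d, q_mem d hd⟩ : ℝ[X]))) ∧
      ((T ⟨X ^ d, pow_mem d hd⟩ : ℝ[X]) = 0 →
        (Preserves T ↔ RealRooted (T ⟨q d, q_mem d hd⟩ : ℝ[X]) ∧
          AllSameSign (T ⟨q d, q_mem d hd⟩ : ℝ[X])))) ∧
    (∀ (d : ℕ) (hd : 2 ≤ d),
      (∃ T : V d →ₗ[ℝ] V d, IsDiagonal T ∧ Preserves T ∧
        (T ⟨X ^ d, pow_mem d hd⟩ : ℝ[X]) = 0 ∧
        ¬ SameSign d (T ⟨q d, q_mem d hd⟩ : ℝ[X])) ∧
      (∃ T : V d →ₗ[ℝ] V d, IsDiagonal T ∧ Preserves T ∧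
        (T ⟨q d, q_mem d hd⟩ : ℝ[X]) = X ^ d)) := by
  refine ⟨?_, ?_⟩
  · rintro d hd T ⟨lam, hlam⟩
    have hQ : ∀ k, (T ⟨q d, q_mem d hd⟩ : ℝ[X]).coeff k =
        lam k * (MP_0cd67c_ag.ZeroSumPreservers.g0 d).coeff k :=
      fun k => hlam ⟨q d, q_mem d hd⟩ k
    have hTX := T_pow hd hlam
    constructor
    · intro h0
      constructor
      · intro hT
        have hqs : RealRooted (q d) := by
          rw [realRooted_iff]
          unfold q
          rw [← C_1]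
          exact ((Splits.X_sub_C 1).pow _).mul (Splits.X_add_C _)
        refine ⟨hT _ hqs, ?_⟩
        refine (X190.ZSum.necessity hd (pres_of hlam hT) _ hQ).1 ?_
        intro h1
        apply h0
        rw [hTX, h1, C_0, zero_mul]
      · rintro ⟨h1, h2⟩
        exact suff hd hlam h1 h2
    · intro h0
      have hl : lam d = 0 := by
        rw [hTX] at h0
        rcases mul_eq_zero.1 h0 with h | h
        · exact C_eq_zero.1 h
        · exact absurd h (pow_ne_zero _ X_ne_zero)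
      constructor
      · intro hT
        have hqs : RealRooted (q d) := by
          rw [realRooted_iff]
          unfold q
          rw [← C_1]
          exact ((Splits.X_sub_C 1).pow _).mul (Splits.X_add_C _)
        exact ⟨hT _ hqs, (X190.ZSum.necessity hd (pres_of hlam hT) _ hQ).2 hl⟩
      · rintro ⟨h1, h2⟩ p hp
        rw [realRooted_iff] at h1 hp ⊢
        exact X190.ZSum.suff_zero hd hl hQ h1 h2 hp p.2.1 p.2.2 (hlam p)
  · intro d hd
    have hdiag : ∀ (k : ℕ) (hk : k ≤ d) (hk1 : k ≠ d - 1), IsDiagonal (proj d k hk hk1) := by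
      intro k hk hk1
      refine ⟨fun j => if j = k then 1 else 0, fun p j => ?_⟩
      show (C ((p : ℝ[X]).coeff k) * X ^ k : ℝ[X]).coeff j =
        (if j = k then 1 else 0) * (p : ℝ[X]).coeff j
      rw [coeff_C_mul, coeff_X_pow]
      by_cases h : j = k
      · rw [if_pos h, h]; ring
      · rw [if_neg h]; ring
    have hpres : ∀ (k : ℕ) (hk : k ≤ d) (hk1 : k ≠ d - 1), Preserves (proj d k hk hk1) := by
      intro k hk hk1 p _
      show RealRooted (C ((p : ℝ[X]).coeff k) * X ^ k : ℝ[X])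
      rw [realRooted_iff]
      exact (Splits.X_pow k).C_mul _
    refine ⟨⟨proj d 0 (by omega) (by omega), hdiag _ _ _, hpres _ _ _, ?_, ?_⟩,
      ⟨proj d d le_rfl (by omega), hdiag _ _ _, hpres _ _ _, ?_⟩⟩
    · show (C ((X ^ d : ℝ[X]).coeff 0) * X ^ 0 : ℝ[X]) = 0
      rw [coeff_X_pow, if_neg (by omega), C_0, zero_mul]
    · show ¬ SameSign d (C ((q d).coeff 0) * X ^ 0 : ℝ[X])
      rw [pow_zero, mul_one]
      unfold SameSign
      rw [roots_C]
      simp only [Multiset.filter_zero, Multiset.card_zero]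
      omega
    · show (C ((q d).coeff d) * X ^ d : ℝ[X]) = X ^ d
      have h1 : (q d).coeff d = 1 := by
        have := MP_0cd67c_ag.ZeroSumPreservers.reflect_g0_coeff d (by omega) 0
        rw [coeff_reflect, revAt_le (Nat.zero_le _), Nat.sub_zero] at this
        show (MP_0cd67c_ag.ZeroSumPreservers.g0 d).coeff d = 1
        rw [this]
        simp
      rw [h1, C_1, one_mul]

end Pool.Agent.Results.MP_31565c_an.ZeroSumCriterion
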